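import Pool.Agent.H46.RF.Stm

set_option autoImplicit false
set_option linter.unreachableTactic false
set_option linter.unusedTactic false

namespace H87.RF

open ZFSet (pair)
open Pool.Agent.W868 H46.RF
open MeasureTheory H14.ES

theorem mem_nat_iff {n : ℕ} {y : ZFSet.{0}} : y ∈ nat n ↔ ∃ k, k < n ∧ y = nat k := by
  induction n with
  | zero =>
    constructor
    · intro h
      exact absurd h (ZFSet.notMem_empty y)
    · rintro ⟨k, hk, _⟩
      exact absurd hk (Nat.not_lt_zero k)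
  | succ n ih =>
    rw [nat, ZFSet.mem_insert_iff, ih]
    constructor
    · rintro (h | ⟨k, hk, h⟩)
      · exact ⟨n, Nat.lt_succ_self n, h⟩
      · exact ⟨k, hk.trans (Nat.lt_succ_self n), h⟩
    · rintro ⟨k, hk, h⟩
      rcases Nat.lt_succ_iff_lt_or_eq.mp hk with h1 | h1
      · exact Or.inr ⟨k, h1, h⟩
      · exact Or.inl (h1 ▸ h)

/-- the initial segment of the graph of `f` -/
noncomputable def tg (f : ℕ → ℕ) : ℕ → ZFSet.{0}
  | 0 => {pair (nat 0) (nat (f 0))}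
  | n + 1 => insert (pair (nat (n + 1)) (nat (f (n + 1)))) (tg f n)

theorem mem_tg {f : ℕ → ℕ} {n : ℕ} {z : ZFSet.{0}} :
    z ∈ tg f n ↔ ∃ k, k ≤ n ∧ z = pair (nat k) (nat (f k)) := by
  induction n with
  | zero =>
    rw [tg, ZFSet.mem_singleton]
    constructor
    · intro h
      exact ⟨0, le_rfl, h⟩
    · rintro ⟨k, hk, h⟩
      obtain rfl : k = 0 := Nat.le_zero.mp hk
      exact h
  | succ n ih =>
    rw [tg, ZFSet.mem_insert_iff, ih]
    constructor
    · rintro (h | ⟨k, hk, h⟩)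
      · exact ⟨n + 1, le_rfl, h⟩
      · exact ⟨k, hk.trans (Nat.le_succ n), h⟩
    · rintro ⟨k, hk, h⟩
      rcases Nat.lt_or_eq_of_le hk with h1 | h1
      · exact Or.inr ⟨k, Nat.lt_succ_iff.mp h1, h⟩
      · exact Or.inl (h1 ▸ h)

theorem tg_mem {M : Set ZFSet.{0}} (hM : IsZF M) (f : ℕ → ℕ) (n : ℕ) : tg f n ∈ M := by
  induction n with
  | zero => exact hM.single_mem (hM.pair_mem (hM.nat_mem _) (hM.nat_mem _))
  | succ n ih => exact hM.insert_mem (hM.pair_mem (hM.nat_mem _) (hM.nat_mem _)) ih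

/-- PR1: closure under primitive recursion. -/
theorem pr1 : S_PR1 := by
  intro M hM b s hb hs
  obtain ⟨gb, hgb, hgb'⟩ := hb
  obtain ⟨gs, hgs, hgs'⟩ := hs
  have hB := hM.base
  have hω : ZFSet.omega ∈ M := hM.infinity
  have h0 : nat 0 ∈ M := hM.nat_mem 0
  set F : ℕ → ℕ → ℕ := fun m n => Nat.rec (b m) (fun y ih => s m y ih) n with hF
  have hF0 : ∀ m, F m 0 = b m := fun m => rfl
  have hFs : ∀ m k, F m (k + 1) = s m k (F m k) := fun m k => rfl
  let Q : ZFSet.{0} → Prop := fun z => ∃ a ∈ ZFSet.omega, ∃ c ∈ ZFSet.omega, ∃ v ∈ ZFSet.omega,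
    z = pair (pair a c) v ∧ ∀ t ∈ M, (∃ b0 ∈ ZFSet.omega, pair a b0 ∈ gb ∧ pair (nat 0) b0 ∈ t) →
      (∀ y ∈ c, ∀ v' ∈ ZFSet.omega, pair y v' ∈ t → ∀ w ∈ ZFSet.omega,
        pair (pair a (pair y v')) w ∈ gs → pair (insert y y) w ∈ t) → pair c v ∈ t
  have hQ : Dfn M M fun w : Fin 1 → ZFSet.{0} => Q (w 0) := by
    show Dfn M M fun w : Fin 1 → ZFSet.{0} =>
      ∃ a ∈ ZFSet.omega, ∃ c ∈ ZFSet.omega, ∃ v ∈ ZFSet.omega,
      w 0 = pair (pair a c) v ∧ ∀ t ∈ M,
        (∃ b0 ∈ ZFSet.omega, pair a b0 ∈ gb ∧ pair (nat 0) b0 ∈ t) →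
        (∀ y ∈ c, ∀ v' ∈ ZFSet.omega, pair y v' ∈ t → ∀ w ∈ ZFSet.omega,
          pair (pair a (pair y v')) w ∈ gs → pair (insert y y) w ∈ t) → pair c v ∈ t
    (repeat' first
      | assumption
      | exact DfnF.proj _
      | exact DfnF.const (by assumption)
      | exact DfnF.const' (by first | assumption | trivial) (by first | assumption | trivial)
      | exact Dfn.prop _
      | apply Dfn.not | apply Dfn.and | apply Dfn.or | apply Dfn.imp | apply Dfn.iff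
      | apply hB.bex | apply hB.ball | apply Dfn.ex | apply Dfn.all
      | apply Dfn.eq | apply Dfn.mem | apply hB.pair' | apply hB.insert')
  have hmem : ∀ n : ℕ, nat n ∈ ZFSet.omega := fun n => mem_omega_iff.2 ⟨n, rfl⟩
  -- correctness
  have hcor : ∀ (m n : ℕ) (v : ZFSet.{0}),
      (∀ t ∈ M, (∃ b0 ∈ ZFSet.omega, pair (nat m) b0 ∈ gb ∧ pair (nat 0) b0 ∈ t) →
      (∀ y ∈ nat n, ∀ v' ∈ ZFSet.omega, pair y v' ∈ t → ∀ w ∈ ZFSet.omega,
        pair (pair (nat m) (pair y v')) w ∈ gs → pair (insert y y) w ∈ t) →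
          pair (nat n) v ∈ t) ↔ v = nat (F m n) := by
    intro m n v
    constructor
    · intro h
      have h1 := h (tg (F m) n) (tg_mem hM _ _) ?_ ?_
      · obtain ⟨k, hk, h2⟩ := mem_tg.1 h1
        obtain ⟨h3, h4⟩ := ZFSet.pair_inj.1 h2
        rw [nat_injective h3]
        exact h4
      · refine ⟨nat (b m), hmem _, (hgb' _).2 ⟨m, rfl⟩, mem_tg.2 ⟨0, Nat.zero_le n, ?_⟩⟩
        rw [hF0]
      · intro y hy v' hv' h2 w hw h3
        obtain ⟨k, hk, rfl⟩ := mem_nat_iff.1 hy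
        obtain ⟨k', hk', h4⟩ := mem_tg.1 h2
        obtain ⟨h5, h6⟩ := ZFSet.pair_inj.1 h4
        obtain rfl := nat_injective h5
        obtain ⟨m1, n1, k1, h7⟩ := (hgs' _).1 h3
        obtain ⟨h8, h9⟩ := ZFSet.pair_inj.1 h7
        obtain ⟨h10, h11⟩ := ZFSet.pair_inj.1 h8
        obtain ⟨h12, h13⟩ := ZFSet.pair_inj.1 h11
        obtain rfl := nat_injective h10
        obtain rfl := nat_injective h12
        rw [h6] at h13
        have h14 := nat_injective h13
        refine mem_tg.2 ⟨k + 1, hk, ?_⟩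
        rw [h9, hFs, h14]
        rfl
    · rintro rfl t ht ⟨b0, hb0, h1, h2⟩ h3
      have key : ∀ k, k ≤ n → pair (nat k) (nat (F m k)) ∈ t := by
        intro k
        induction k with
        | zero =>
          intro _
          obtain ⟨m', h4⟩ := (hgb' _).1 h1
          obtain ⟨h5, h6⟩ := ZFSet.pair_inj.1 h4
          obtain rfl := nat_injective h5
          rw [h6] at h2
          exact h2
        | succ k ih =>
          intro hk
          exact h3 (nat k) (mem_nat_iff.2 ⟨k, hk, rfl⟩) (nat (F m k)) (hmem _)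
            (ih (Nat.le_of_succ_le hk)) (nat (F m (k + 1))) (hmem _)
            ((hgs' _).2 ⟨m, k, F m k, rfl⟩)
      exact key n le_rfl
  refine ⟨ZFSet.sep Q (ZFSet.prod (ZFSet.prod ZFSet.omega ZFSet.omega) ZFSet.omega),
    hM.sep_mem hQ (hM.prod_mem (hM.prod_mem hω hω) hω), fun z => ?_⟩
  rw [ZFSet.mem_sep]
  constructor
  · rintro ⟨_, a, ha, c, hc, v, hv, rfl, h⟩
    obtain ⟨m, rfl⟩ := mem_omega_iff.1 ha
    obtain ⟨n, rfl⟩ := mem_omega_iff.1 hc
    refine ⟨m, n, ?_⟩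
    rw [(hcor m n v).1 h]
  · rintro ⟨m, n, rfl⟩
    refine ⟨ZFSet.pair_mem_prod.2 ⟨ZFSet.pair_mem_prod.2 ⟨hmem _, hmem _⟩, hmem _⟩,
      nat m, hmem _, nat n, hmem _, _, hmem _, rfl, ?_⟩
    exact (hcor m n _).2 rfl

end H87.RF
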